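import Pool.Agent.Q299.Dag.Proof

/-!
# MP_f59edb_pr, Q1: `r_{x,y,n} → 1`

Consider the edges in a random order. While fewer than `x` vertices are initial, an edge `(a, b)`
inside the first `x` vertices can only be rejected because it is the last edge leaving `a`, so all
the edges from `a` to the other `n - x` vertices have been considered before. This has probability
`O(1 / n)`. The same for terminal vertices.
-/

namespace Pool.Agent.Results.MP_f59edb_pr.RemovalProcessSucceeds

open Finset Filter Topology Q299.Dag

variable {n : ℕ}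

lemma mem_complete {e : Fin n × Fin n} : e ∈ complete n ↔ e.1 < e.2 := by
  simp [complete]

lemma initials_mono (G G' : Finset (Fin n × Fin n)) (h : G' ⊆ G) : initials G ≤ initials G' := by
  apply card_le_card
  intro v hv
  rw [mem_filter] at hv ⊢
  exact ⟨hv.1, fun u hu => hv.2 u (h hu)⟩

lemma terminals_mono (G G' : Finset (Fin n × Fin n)) (h : G' ⊆ G) : terminals G ≤ terminals G' := by
  apply card_le_card
  intro v hv
  rw [mem_filter] at hv ⊢
  exact ⟨hv.1, fun u hu => hv.2 u (h hu)⟩

lemma initials_step (G : Finset (Fin n × Fin n)) (e : Fin n × Fin n) :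
    initials (G.erase e) ≤ initials G + 1 := by
  unfold initials
  refine le_trans (card_le_card (t := insert e.2 (univ.filter (fun v : Fin n => ∀ u, (u, v) ∉ G))) ?_)
    (card_insert_le _ _)
  intro v hv
  rw [mem_filter] at hv
  rw [mem_insert, mem_filter]
  by_cases h : v = e.2
  · left; exact h
  · right
    refine ⟨mem_univ _, fun u hu => hv.2 u (mem_erase.2 ⟨?_, hu⟩)⟩
    rintro rfl
    exact h rfl

lemma terminals_step (G : Finset (Fin n × Fin n)) (e : Fin n × Fin n) :
    terminals (G.erase e) ≤ terminals G + 1 := by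
  unfold terminals
  refine le_trans (card_le_card (t := insert e.1 (univ.filter (fun v : Fin n => ∀ u, (v, u) ∉ G))) ?_)
    (card_insert_le _ _)
  intro v hv
  rw [mem_filter] at hv
  rw [mem_insert, mem_filter]
  by_cases h : v = e.1
  · left; exact h
  · right
    refine ⟨mem_univ _, fun u hu => hv.2 u (mem_erase.2 ⟨?_, hu⟩)⟩
    rintro rfl
    exact h rfl

/-- edges inside the first `x` vertices -/
def B1 (n x : ℕ) : Finset (Fin n × Fin n) := univ.filter (fun e => e.1 < e.2 ∧ e.2.1 < x)

/-- edges from `a` to the vertices that are not among the first `x` -/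
def L1 (n x : ℕ) (a : Fin n) : Finset (Fin n × Fin n) :=
  univ.filter (fun e => e.1 = a ∧ x ≤ e.2.1)

/-- edges inside the last `y` vertices -/
def B2 (n y : ℕ) : Finset (Fin n × Fin n) := univ.filter (fun e => e.1 < e.2 ∧ n - y ≤ e.1.1)

/-- edges from the vertices that are not among the last `y` to `b` -/
def L2 (n y : ℕ) (b : Fin n) : Finset (Fin n × Fin n) :=
  univ.filter (fun e => e.2 = b ∧ e.1.1 < n - y)

theorem setting1 (x : ℕ) (hx : x ≤ n) :
    Setting (Fin n × Fin n) initials terminals x (complete n) (B1 n x)
      (univ.filter (fun a : Fin n => a.1 < x)) (L1 n x) := by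
  refine ⟨initials_mono, terminals_mono, initials_step, ?_, ?_, ?_⟩
  · intro G hG hGB
    have : (univ.filter (fun a : Fin n => a.1 < x)).card ≤ initials G := by
      apply card_le_card
      intro v hv
      rw [mem_filter] at hv ⊢
      refine ⟨mem_univ _, fun u hu => ?_⟩
      have h1 := mem_complete.1 (hG hu)
      have : (u, v) ∈ G ∩ B1 n x := by
        rw [mem_inter]
        exact ⟨hu, by simp only [B1, mem_filter, mem_univ, true_and]; exact ⟨h1, hv.2⟩⟩
      rw [hGB] at this
      exact notMem_empty _ this
    refine le_trans ?_ this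
    rw [Fin.card_filter_val_lt]
    omega
  · intro G e hG he hL
    simp only [B1, mem_filter, mem_univ, true_and] at he
    apply card_le_card
    intro v hv
    rw [mem_filter] at hv ⊢
    refine ⟨mem_univ _, fun w hw => ?_⟩
    by_cases hve : (v, w) = e
    · subst hve
      simp only at he
      obtain ⟨f, hf⟩ := hL v (by
        rw [mem_filter]
        exact ⟨mem_univ _, lt_trans (Fin.lt_def.1 he.1) he.2⟩)
      rw [mem_inter] at hf
      simp only [L1, mem_filter, mem_univ, true_and] at hf
      obtain ⟨hf1, hf2, hf3⟩ := hf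
      apply hv.2 f.2
      rw [mem_erase]
      refine ⟨?_, ?_⟩
      · intro h
        have := congrArg Prod.snd h
        simp only at this
        rw [this] at hf3
        omega
      · rw [← hf2]; exact hf1
    · exact hv.2 w (mem_erase.2 ⟨hve, hw⟩)
  · intro a _
    rw [disjoint_left]
    intro e he he'
    simp only [B1, mem_filter, mem_univ, true_and] at he
    simp only [L1, mem_filter, mem_univ, true_and] at he'
    omega

theorem setting2 (y : ℕ) (hy : y ≤ n) :
    Setting (Fin n × Fin n) terminals initials y (complete n) (B2 n y)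
      (univ.filter (fun a : Fin n => n - y ≤ a.1)) (L2 n y) := by
  refine ⟨terminals_mono, initials_mono, terminals_step, ?_, ?_, ?_⟩
  · intro G hG hGB
    have : (univ.filter (fun a : Fin n => n - y ≤ a.1)).card ≤ terminals G := by
      apply card_le_card
      intro v hv
      rw [mem_filter] at hv ⊢
      refine ⟨mem_univ _, fun u hu => ?_⟩
      have h1 := mem_complete.1 (hG hu)
      have : (v, u) ∈ G ∩ B2 n y := by
        rw [mem_inter]
        exact ⟨hu, by simp only [B2, mem_filter, mem_univ, true_and]; exact ⟨h1, hv.2⟩⟩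
      rw [hGB] at this
      exact notMem_empty _ this
    refine le_trans ?_ this
    have h2 := card_filter_add_card_filter_not (s := (univ : Finset (Fin n))) (fun a => a.1 < n - y)
    rw [Fin.card_filter_val_lt, card_univ, Fintype.card_fin] at h2
    simp only [not_lt] at h2
    omega
  · intro G e hG he hL
    simp only [B2, mem_filter, mem_univ, true_and] at he
    apply card_le_card
    intro v hv
    rw [mem_filter] at hv ⊢
    refine ⟨mem_univ _, fun w hw => ?_⟩
    by_cases hve : (w, v) = e
    · subst hve
      simp only at he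
      obtain ⟨f, hf⟩ := hL v (by
        rw [mem_filter]
        exact ⟨mem_univ _, he.2.trans (Fin.lt_def.1 he.1).le⟩)
      rw [mem_inter] at hf
      simp only [L2, mem_filter, mem_univ, true_and] at hf
      obtain ⟨hf1, hf2, hf3⟩ := hf
      apply hv.2 f.1
      rw [mem_erase]
      refine ⟨?_, ?_⟩
      · intro h
        have := congrArg Prod.fst h
        simp only at this
        rw [this] at hf3
        omega
      · rw [← hf2]; exact hf1
    · exact hv.2 w (mem_erase.2 ⟨hve, hw⟩)
  · intro a _
    rw [disjoint_left]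
    intro e he he'
    simp only [B2, mem_filter, mem_univ, true_and] at he
    simp only [L2, mem_filter, mem_univ, true_and] at he'
    omega

lemma card_lt (x : ℕ) (hx : x ≤ n) : (univ.filter (fun a : Fin n => a.1 < x)).card = x := by
  rw [Fin.card_filter_val_lt]
  omega

lemma card_ge (y : ℕ) (hy : y ≤ n) : (univ.filter (fun a : Fin n => n - y ≤ a.1)).card = y := by
  have h2 := card_filter_add_card_filter_not (s := (univ : Finset (Fin n))) (fun a => a.1 < n - y)
  rw [Fin.card_filter_val_lt, card_univ, Fintype.card_fin] at h2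
  simp only [not_lt] at h2
  omega

lemma card_B1 (x : ℕ) (hx : x ≤ n) : (B1 n x).card ≤ x ^ 2 := by
  have : B1 n x ⊆ (univ.filter (fun a : Fin n => a.1 < x)) ×ˢ (univ.filter (fun a : Fin n => a.1 < x)) := by
    intro e he
    simp only [B1, mem_filter, mem_univ, true_and] at he
    simp only [mem_product, mem_filter, mem_univ, true_and]
    have := Fin.lt_def.1 he.1
    omega
  refine (card_le_card this).trans ?_
  rw [card_product, card_lt x hx, sq]

lemma card_B2 (y : ℕ) (hy : y ≤ n) : (B2 n y).card ≤ y ^ 2 := by
  have : B2 n y ⊆ (univ.filter (fun a : Fin n => n - y ≤ a.1)) ×ˢ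
      (univ.filter (fun a : Fin n => n - y ≤ a.1)) := by
    intro e he
    simp only [B2, mem_filter, mem_univ, true_and] at he
    simp only [mem_product, mem_filter, mem_univ, true_and]
    have := Fin.lt_def.1 he.1
    omega
  refine (card_le_card this).trans ?_
  rw [card_product, card_ge y hy, sq]

lemma card_L1 (x : ℕ) (hx : x ≤ n) (a : Fin n) (ha : a.1 < x) :
    n - x ≤ (complete n ∩ L1 n x a).card := by
  have h1 : (univ.filter (fun w : Fin n => ¬ w.1 < x)).card = n - x := by
    have h2 := card_filter_add_card_filter_not (s := (univ : Finset (Fin n))) (fun a => a.1 < x)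
    rw [card_lt x hx, card_univ, Fintype.card_fin] at h2
    omega
  rw [← h1]
  apply card_le_card_of_injOn (fun w => (a, w))
  · intro w hw
    simp only [coe_filter, mem_univ, true_and, Set.mem_ofPred_eq] at hw
    rw [mem_coe, mem_inter, mem_complete]
    simp only [L1, mem_filter, mem_univ, true_and]
    rw [Fin.lt_def]
    omega
  · intro w _ w' _ h
    exact congrArg Prod.snd h

lemma card_L2 (y : ℕ) (hy : y ≤ n) (b : Fin n) (hb : n - y ≤ b.1) :
    n - y ≤ (complete n ∩ L2 n y b).card := by
  have h1 : (univ.filter (fun w : Fin n => w.1 < n - y)).card = n - y := by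
    rw [card_lt (n - y) (Nat.sub_le _ _)]
  nth_rewrite 1 [← h1]
  apply card_le_card_of_injOn (fun w => (w, b))
  · intro w hw
    simp only [coe_filter, mem_univ, true_and, Set.mem_ofPred_eq] at hw
    rw [mem_coe, mem_inter, mem_complete]
    simp only [L2, mem_filter, mem_univ, true_and]
    rw [Fin.lt_def]
    omega
  · intro w _ w' _ h
    exact congrArg Prod.fst h

lemma psi_le (B L F : Finset (Fin n × Fin n)) {x m : ℕ} (hB : B.card ≤ x ^ 2)
    (hL : m ≤ (F ∩ L).card) (hm : 0 < m) : psi B L F ≤ (x : ℝ) ^ 2 / m := by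
  unfold psi
  have h1 : ((F ∩ B).card : ℝ) ≤ (x : ℝ) ^ 2 := by
    exact_mod_cast (card_le_card inter_subset_right).trans hB
  have h2 : (m : ℝ) ≤ ((F ∩ L).card : ℝ) := by exact_mod_cast hL
  have h3 : (0 : ℝ) < m := by exact_mod_cast hm
  have h4 : (0 : ℝ) ≤ ((F ∩ B).card : ℝ) := Nat.cast_nonneg _
  apply div_le_div₀ (by positivity) h1 h3
  linarith

lemma initials_complete (hn : 1 ≤ n) : initials (complete n) ≤ 1 := by
  unfold initials
  rw [card_le_one]
  intro v hv w hw
  rw [mem_filter] at hv hw
  by_contra hne
  rcases lt_or_gt_of_ne hne with h | h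
  · exact hw.2 v (mem_complete.2 h)
  · exact hv.2 w (mem_complete.2 h)

lemma terminals_complete (hn : 1 ≤ n) : terminals (complete n) ≤ 1 := by
  unfold terminals
  rw [card_le_one]
  intro v hv w hw
  rw [mem_filter] at hv hw
  by_contra hne
  rcases lt_or_gt_of_ne hne with h | h
  · exact hv.2 w (mem_complete.2 h)
  · exact hw.2 v (mem_complete.2 h)

lemma stop_le_one {I T : Finset (Fin n × Fin n) → ℕ} {x y : ℕ}
    {Q : Finset (Fin n × Fin n) → Prop} (G : Finset (Fin n × Fin n)) :
    stopProb I T x y Q G ≤ 1 := by
  classical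
  induction hk : G.card using Nat.strong_induction_on generalizing G with
  | _ k ih =>
    by_cases h : (removable I T x y G).Nonempty
    · have hc : (0 : ℝ) < ((removable I T x y G).card : ℝ) := by exact_mod_cast h.card_pos
      apply le_of_mul_le_mul_left _ hc
      rw [← stop_of_some h, ← nsmul_eq_mul, ← sum_const]
      apply sum_le_sum
      intro e he
      exact ih _ (hk ▸ card_erase_lt_of_mem (mem_of_mem_filter _ he)) _ rfl
    · rw [stop_of_none h]
      split_ifs <;> norm_num

theorem quantitative (x y : ℕ) (hx : 1 ≤ x) (hy : 1 ≤ y) (n : ℕ) (hxn : x < n) (hyn : y < n) :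
    1 - ((x : ℝ) ^ 3 / ((n : ℝ) - x) + (y : ℝ) ^ 3 / ((n : ℝ) - y)) ≤ r x y n := by
  have hn : 1 ≤ n := by omega
  have i1 : initials (complete n) ≤ x := (initials_complete hn).trans hx
  have t1 : terminals (complete n) ≤ y := (terminals_complete hn).trans hy
  have b1 := main_bound (y := y) (setting1 (n := n) x hxn.le) _ (complete n) (complete n) rfl
    (filter_subset _ _) subset_rfl subset_rfl i1 t1 (Or.inr inter_subset_left)
  have b2 := main_bound (y := x) (setting2 (n := n) y hyn.le) _ (complete n) (complete n) rfl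
    (filter_subset _ _) subset_rfl subset_rfl t1 i1 (Or.inr inter_subset_left)
  have hnx : ((n - x : ℕ) : ℝ) = (n : ℝ) - x := by rw [Nat.cast_sub hxn.le]
  have hny : ((n - y : ℕ) : ℝ) = (n : ℝ) - y := by rw [Nat.cast_sub hyn.le]
  have c1 : ∑ a ∈ univ.filter (fun a : Fin n => a.1 < x), psi (B1 n x) (L1 n x a) (complete n) ≤
      (x : ℝ) ^ 3 / ((n : ℝ) - x) := by
    calc _ ≤ ∑ a ∈ univ.filter (fun a : Fin n => a.1 < x), (x : ℝ) ^ 2 / ((n - x : ℕ) : ℝ) := by
          apply sum_le_sum
          intro a ha
          rw [mem_filter] at ha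
          exact psi_le _ _ _ (card_B1 x hxn.le) (card_L1 x hxn.le a ha.2) (by omega)
      _ = _ := by
          rw [sum_const, card_lt x hxn.le, nsmul_eq_mul, hnx]
          ring
  have c2 : ∑ a ∈ univ.filter (fun a : Fin n => n - y ≤ a.1), psi (B2 n y) (L2 n y a) (complete n) ≤
      (y : ℝ) ^ 3 / ((n : ℝ) - y) := by
    calc _ ≤ ∑ a ∈ univ.filter (fun a : Fin n => n - y ≤ a.1), (y : ℝ) ^ 2 / ((n - y : ℕ) : ℝ) := by
          apply sum_le_sum
          intro a ha
          rw [mem_filter] at ha
          exact psi_le _ _ _ (card_B2 y hyn.le) (card_L2 y hyn.le a ha.2) (by omega)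
      _ = _ := by
          rw [sum_const, card_ge y hyn.le, nsmul_eq_mul, hny]
          ring
  have u := stop_union (I := initials) (T := terminals) (x := x) (y := y)
    (Q := fun G : Finset (Fin n × Fin n) => initials G = x ∧ terminals G = y)
    (Q1 := fun G => initials G ≠ x) (Q2 := fun G => terminals G ≠ y)
    (fun G => by tauto) (complete n)
  have u2 : stopProb initials terminals x y (fun G : Finset (Fin n × Fin n) => terminals G ≠ y)
      (complete n) = stopProb terminals initials y x (fun G => terminals G ≠ y) (complete n) :=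
    stop_comm _
  rw [u2] at u
  have : r x y n = stopProb initials terminals x y
    (fun G : Finset (Fin n × Fin n) => initials G = x ∧ terminals G = y) (complete n) := rfl
  rw [this]
  linarith

/-- Q1 holds: for all fixed `x, y ≥ 1`, the probability that the `(x, y)` edge-removal process on
`n` vertices stops at an `(x, y)` task-dependency graph tends to `1`. -/
theorem result : ∀ x y : ℕ, 1 ≤ x → 1 ≤ y →
    (∀ n : ℕ, x < n → y < n →
      1 - ((x : ℝ) ^ 3 / ((n : ℝ) - x) + (y : ℝ) ^ 3 / ((n : ℝ) - y)) ≤ r x y n) ∧
    Tendsto (fun n => r x y n) atTop (𝓝 1) := by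
  intro x y hx hy
  refine ⟨fun n hxn hyn => quantitative x y hx hy n hxn hyn, ?_⟩
  have hlim : Tendsto (fun n : ℕ => 1 - ((x : ℝ) ^ 3 / ((n : ℝ) - x) + (y : ℝ) ^ 3 / ((n : ℝ) - y)))
      atTop (𝓝 1) := by
    have h1 : ∀ z : ℝ, Tendsto (fun n : ℕ => z ^ 3 / ((n : ℝ) - z)) atTop (𝓝 0) := by
      intro z
      apply Tendsto.div_atTop tendsto_const_nhds
      exact tendsto_atTop_add_const_right _ _ tendsto_natCast_atTop_atTop
    have := ((h1 x).add (h1 y)).const_sub 1
    simpa using this
  refine tendsto_of_tendsto_of_tendsto_of_le_of_le' hlim tendsto_const_nhds ?_ ?_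
  · filter_upwards [eventually_gt_atTop x, eventually_gt_atTop y] with n h1 h2
    exact quantitative x y hx hy n h1 h2
  · filter_upwards with n
    exact stop_le_one _

end Pool.Agent.Results.MP_f59edb_pr.RemovalProcessSucceeds
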